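import Mathlib

set_option autoImplicit false

namespace Pool.Agent.Results.MP_207d4d_co.No

open Finset

/-- A graph on `n` vertices with loops and multiple edges allowed: symmetric edge
multiplicities. -/
def MG (n : ℕ) : Type := {m : Fin n → Fin n → ℕ // ∀ u v, m u v = m v u}

/-- `H` is isomorphic to an induced subgraph of `G`. -/
def Le {h g : ℕ} (H : MG h) (G : MG g) : Prop :=
  ∃ f : Fin h ↪ Fin g, ∀ u v, H.1 u v = G.1 (f u) (f v)

/-- Isomorphism of graphs on `n` vertices. -/
def iso (n : ℕ) : Setoid (MG n) where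
  r K K' := ∃ e : Fin n ≃ Fin n, ∀ u v, K.1 u v = K'.1 (e u) (e v)
  iseqv := ⟨fun _ => ⟨Equiv.refl _, fun _ _ => rfl⟩,
    fun ⟨e, h⟩ => ⟨e.symm, fun u v => by rw [h]; simp⟩,
    fun ⟨e, h⟩ ⟨e', h'⟩ => ⟨e.trans e', fun u v => by rw [h, h']; rfl⟩⟩

/-- Connected: nonempty, and any two vertices are joined by a walk. -/
def Conn {n : ℕ} (K : MG n) : Prop :=
  0 < n ∧ ∀ u v, Relation.ReflTransGen (fun a b => K.1 a b ≠ 0) u v

/-- The number of isomorphism classes of rank `k` in the interval `[H,G]` of all graphs. -/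
noncomputable def r {h g : ℕ} (H : MG h) (G : MG g) (k : ℕ) : ℕ :=
  {q : Quotient (iso (h + k)) | ∃ K : MG (h + k), q = Quotient.mk _ K ∧ Le H K ∧ Le K G}.ncard

/-- The same number for the interval in the poset of connected graphs. -/
noncomputable def rc {h g : ℕ} (H : MG h) (G : MG g) (k : ℕ) : ℕ :=
  {q : Quotient (iso (h + k)) |
    ∃ K : MG (h + k), q = Quotient.mk _ K ∧ Conn K ∧ Le H K ∧ Le K G}.ncard

def Γ {n : ℕ} (c : Fin n → Fin 4) : MG n :=
  ⟨fun u v => if c u = c v then 0 else 1, fun u v => by simp only [eq_comm]⟩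

def fib {n : ℕ} (c : Fin n → Fin 4) (i : Fin 4) : ℕ := (univ.filter fun v => c v = i).card

lemma fib_sum {n : ℕ} (c : Fin n → Fin 4) : ∑ i, fib c i = n := by
  have := card_eq_sum_card_fiberwise (s := univ) (t := univ) (f := c) (fun _ _ => mem_univ _)
  simp only [card_univ, Fintype.card_fin] at this
  exact this.symm

lemma exists_col (t : Fin 4 → ℕ) {n : ℕ} (h : ∑ i, t i = n) :
    ∃ c : Fin n → Fin 4, ∀ i, fib c i = t i := by
  subst h
  refine ⟨fun v => (finSigmaFinEquiv.symm v).1, fun i => ?_⟩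
  rw [fib, ← Fintype.card_subtype, ← Fintype.card_fin (t i)]
  refine Fintype.card_congr ((Equiv.subtypeEquiv finSigmaFinEquiv.symm
    (q := fun s : (Σ j : Fin 4, Fin (t j)) => s.1 = i) fun _ => Iff.rfl).trans ?_)
  exact Equiv.sigmaSubtype i

lemma exists_emb {n m : ℕ} (c : Fin n → Fin 4) (c' : Fin m → Fin 4) (σ : Equiv.Perm (Fin 4))
    (h : ∀ i, fib c i ≤ fib c' (σ i)) : ∃ f : Fin n ↪ Fin m, ∀ v, c' (f v) = σ (c v) := by
  have : ∀ i, Nonempty ({v // c v = i} ↪ {w // c' w = σ i}) := fun i =>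
    Function.Embedding.nonempty_of_card_le (by simpa [Fintype.card_subtype, fib] using h i)
  have e := fun i => (this i).some
  have key : ∀ i j (u : {v // c v = i}) (v : {v // c v = j}), (e i u).1 = (e j v).1 → u.1 = v.1 := by
    intro i j u v huv
    have : i = j := σ.injective (by rw [← (e i u).2, ← (e j v).2, huv])
    subst this
    exact congrArg Subtype.val ((e i).injective (Subtype.ext huv))
  exact ⟨⟨fun v => (e (c v) ⟨v, rfl⟩).1, fun u v huv => key _ _ ⟨u, rfl⟩ ⟨v, rfl⟩ huv⟩,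
    fun v => (e (c v) ⟨v, rfl⟩).2⟩

lemma iso_of {n : ℕ} (c c' : Fin n → Fin 4) (σ : Equiv.Perm (Fin 4))
    (h : ∀ i, fib c i = fib c' (σ i)) : (iso n).r (Γ c) (Γ c') := by
  obtain ⟨f, hf⟩ := exists_emb c c' σ fun i => (h i).le
  refine ⟨Equiv.ofBijective f (Finite.injective_iff_bijective.mp f.injective), fun u v => ?_⟩
  simp [Γ, hf]

def cnt (t : Fin 4 → ℕ) (j : ℕ) : ℕ := ∑ i, if t i = j then j else 0

lemma cnt_eq {n : ℕ} (c : Fin n → Fin 4) (j : ℕ) :
    cnt (fib c) j = (univ.filter fun v => (univ.filter fun w => (Γ c).1 v w = 0).card = j).card := by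
  have e : ∀ v, (univ.filter fun w => (Γ c).1 v w = 0).card = fib c (c v) := fun v => by
    unfold fib; congr 1; ext w; simp [Γ, eq_comm]
  simp only [e]
  rw [card_eq_sum_card_fiberwise (t := univ) (f := c) (fun _ _ => mem_univ _)]
  refine sum_congr rfl fun i _ => ?_
  split_ifs with h
  · rw [← h]; conv_lhs => unfold fib
    congr 1; ext v; simp only [mem_filter, mem_univ, true_and]
    exact ⟨fun hv => ⟨by rw [hv], hv⟩, fun hv => hv.2⟩
  · symm; rw [card_eq_zero, filter_eq_empty_iff]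
    intro v hv hc
    exact h (hc ▸ (mem_filter.mp hv).2)

lemma cnt_iso {n : ℕ} {c c' : Fin n → Fin 4} (h : (iso n).r (Γ c) (Γ c')) (j : ℕ) :
    cnt (fib c) j = cnt (fib c') j := by
  obtain ⟨e, he⟩ := h
  rw [cnt_eq, cnt_eq]
  refine card_bijective e e.bijective fun v => ?_
  simp only [mem_filter, mem_univ, true_and]
  rw [card_bijective (t := univ.filter fun w => (Γ c').1 (e v) w = 0) e e.bijective
    fun w => by simp [he]]

def T (n : ℕ) : Finset (ℕ × ℕ × ℕ × ℕ) :=
  (range 5 ×ˢ range 5 ×ˢ range 9 ×ˢ range 9).filter fun p =>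
    p.1 ≤ p.2.1 ∧ p.2.1 ≤ p.2.2.1 ∧ p.2.2.1 ≤ p.2.2.2 ∧ p.1 + p.2.1 + p.2.2.1 + p.2.2.2 = n

def vec (p : ℕ × ℕ × ℕ × ℕ) : Fin 4 → ℕ := ![p.1, p.2.1, p.2.2.1, p.2.2.2]

def cap : Fin 4 → ℕ := ![4, 4, 8, 8]

lemma count {n : ℕ} (cG : Fin 24 → Fin 4) (hG : ∀ i, fib cG i = cap i)
    (hinj : ∀ p ∈ T n, ∀ q ∈ T n, (∀ j ∈ range 9, cnt (vec p) j = cnt (vec q) j) → p = q) :
    {q : Quotient (iso n) | ∃ K : MG n, q = Quotient.mk _ K ∧ Le K (Γ cG)}.ncard = (T n).card := by
  have : ∀ p : T n, ∃ c : Fin n → Fin 4, ∀ i, fib c i = vec p.1 i := fun p =>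
    exists_col _ (by
      have := (mem_filter.mp p.2).2.2.2.2
      simpa [vec, Fin.sum_univ_four] using this)
  choose col hcol using this
  have : {q : Quotient (iso n) | ∃ K : MG n, q = Quotient.mk _ K ∧ Le K (Γ cG)} =
      Set.range fun p : T n => Quotient.mk (iso n) (Γ (col p)) := by
    ext q
    constructor
    · rintro ⟨K, rfl, f, hf⟩
      have eK : K = Γ (cG ∘ f) := Subtype.ext (funext₂ hf)
      have hle : ∀ i, fib (cG ∘ f) i ≤ cap i := fun i => by
        rw [← hG]
        exact card_le_card_of_injOn f (fun v hv => by simpa using hv) f.injective.injOn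
      set t := fib (cG ∘ f) with ht
      let σ := Tuple.sort t
      have mono : Monotone (t ∘ σ) := Tuple.monotone_sort t
      have h8 : ∀ i, t i ≤ 8 := fun i => (hle i).trans (by fin_cases i <;> simp [cap])
      have h4 : t (σ 1) ≤ 4 := by
        by_cases h0 : σ.symm 0 = 0
        · have : 1 ≤ σ.symm 1 := by
            by_contra hc
            have : σ.symm 1 = 0 := by omega
            exact absurd (σ.symm.injective (this.trans h0.symm)) (by decide)
          have := mono this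
          simp only [Function.comp, Equiv.apply_symm_apply] at this
          exact this.trans (hle 1)
        · have : 1 ≤ σ.symm 0 := by omega
          have := mono this
          simp only [Function.comp, Equiv.apply_symm_apply] at this
          exact this.trans (hle 0)
      have m01 : t (σ 0) ≤ t (σ 1) := mono (by decide)
      have m12 : t (σ 1) ≤ t (σ 2) := mono (by decide)
      have m23 : t (σ 2) ≤ t (σ 3) := mono (by decide)
      have hs : t (σ 0) + t (σ 1) + t (σ 2) + t (σ 3) = n := by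
        rw [← Fin.sum_univ_four (fun i => t (σ i)), Equiv.sum_comp σ t]
        exact fib_sum _
      have hp : (t (σ 0), t (σ 1), t (σ 2), t (σ 3)) ∈ T n := by
        have := h8 (σ 2)
        have := h8 (σ 3)
        simp only [T, mem_filter, mem_product, mem_range]
        omega
      refine ⟨⟨_, hp⟩, Quotient.sound ?_⟩
      rw [eK]
      refine iso_of _ _ σ fun i => ?_
      rw [hcol]
      fin_cases i <;> rfl
    · rintro ⟨p, rfl⟩
      obtain ⟨f, hf⟩ := exists_emb (col p) cG 1 fun i => by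
        have := (mem_filter.mp p.2).1
        simp only [mem_product, mem_range] at this
        rw [hcol, hG]
        fin_cases i <;> simp [vec, cap] <;> omega
      exact ⟨_, rfl, f, fun u v => by simp [Γ, hf]⟩
  rw [this, Set.ncard_range_of_injective, Nat.card_eq_fintype_card, Fintype.card_coe]
  intro p q h
  refine Subtype.ext (hinj _ p.2 _ q.2 fun j _ => ?_)
  have := cnt_iso (Quotient.exact h) j
  rwa [funext (hcol p), funext (hcol q)] at this

lemma conn {n : ℕ} (c : Fin n → Fin 4) (h : ∀ i, fib c i < n) : Conn (Γ c) := by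
  refine ⟨(Nat.zero_le _).trans_lt (h 0), fun u v => ?_⟩
  by_cases huv : c u = c v
  · obtain ⟨w, hw⟩ : ∃ w, c w ≠ c u := by
      by_contra hc
      push Not at hc
      have := h (c u)
      simp [fib, hc] at this
    exact (Relation.ReflTransGen.single (b := w) (by simp [Γ, hw.symm])).tail
      (by simp [Γ, ← huv, hw])
  · exact Relation.ReflTransGen.single (by simp [Γ, huv])

theorem result : ∃ (h g : ℕ) (H : MG h) (G : MG g), Conn H ∧ Conn G ∧ Le H G ∧
    ∃ i j k, i < j ∧ j < k ∧ k ≤ g - h ∧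
      r H G j < r H G i ∧ r H G j < r H G k ∧ rc H G j < rc H G i ∧ rc H G j < rc H G k := by
  obtain ⟨cG, hG⟩ := exists_col cap (n := 24) (by decide)
  have h8 : ∀ i, cap i ≤ 8 := by decide
  let H : MG 1 := ⟨fun _ _ => 0, fun _ _ => rfl⟩
  have hH : ∀ {n : ℕ} (c : Fin n → Fin 4), 0 < n → Le H (Γ c) := fun c hn =>
    ⟨⟨fun _ => ⟨0, hn⟩, fun _ _ _ => Subsingleton.elim _ _⟩, fun _ _ => by simp [H, Γ]⟩
  have both : ∀ k, 8 ≤ k → (∀ p ∈ T (1 + k), ∀ q ∈ T (1 + k),
      (∀ j ∈ range 9, cnt (vec p) j = cnt (vec q) j) → p = q) →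
      r H (Γ cG) k = (T (1 + k)).card ∧ rc H (Γ cG) k = (T (1 + k)).card := by
    intro k hk hinj
    have key : ∀ K : MG (1 + k), Le K (Γ cG) → Conn K ∧ Le H K := by
      rintro K ⟨f, hf⟩
      have eK : K = Γ (cG ∘ f) := Subtype.ext (funext₂ hf)
      rw [eK]
      refine ⟨conn _ fun i => ?_, hH _ (by omega)⟩
      have : fib (cG ∘ f) i ≤ fib cG i :=
        card_le_card_of_injOn f (fun v hv => by simpa using hv) f.injective.injOn
      have := hG i
      have := h8 i
      omega
    rw [← count cG hG hinj]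
    constructor
    · unfold r; congr 1; ext q
      exact ⟨fun ⟨K, a, _, b⟩ => ⟨K, a, b⟩, fun ⟨K, a, b⟩ => ⟨K, a, (key K b).2, b⟩⟩
    · unfold rc; congr 1; ext q
      exact ⟨fun ⟨K, a, _, _, b⟩ => ⟨K, a, b⟩,
        fun ⟨K, a, b⟩ => ⟨K, a, (key K b).1, (key K b).2, b⟩⟩
  obtain ⟨a1, a2⟩ := both 13 (by norm_num) (by decide +kernel)
  obtain ⟨b1, b2⟩ := both 14 (by norm_num) (by decide +kernel)
  obtain ⟨c1, c2⟩ := both 15 (by norm_num) (by decide +kernel)
  have t1 : (T (1 + 13)).card = 31 := by decide +kernel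
  have t2 : (T (1 + 14)).card = 30 := by decide +kernel
  have t3 : (T (1 + 15)).card = 31 := by decide +kernel
  refine ⟨1, 24, H, Γ cG, ⟨one_pos, fun u v => ?_⟩, conn _ fun i => ?_, hH _ (by norm_num),
    13, 14, 15, by norm_num, by norm_num, by norm_num, ?_, ?_, ?_, ?_⟩
  · rw [Subsingleton.elim u v]
  · have := hG i
    have := h8 i
    omega
  all_goals omega

end Pool.Agent.Results.MP_207d4d_co.No
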